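import Pool.Agent.V11151.DD.Word

namespace Pool.Agent.V11151.DD.W

/-- Uniqueness of digits. -/
theorem dig (B : ℕ) (hB : 0 < B) : ∀ (n : ℕ) (a b : ℕ → ℕ), (∀ c < n, a c < B) →
    (∀ c < n, b c < B) →
    ∑ c ∈ Finset.range n, a c * B ^ c = ∑ c ∈ Finset.range n, b c * B ^ c →
    ∀ c < n, a c = b c
  | 0, _, _, _, _, _ => fun c hc => absurd hc (by omega)
  | n + 1, a, b, ha, hb, h => by
    rw [Finset.sum_range_succ', Finset.sum_range_succ'] at h
    have e1 : ∀ f : ℕ → ℕ, ∑ c ∈ Finset.range n, f (c + 1) * B ^ (c + 1) =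
        B * ∑ c ∈ Finset.range n, f (c + 1) * B ^ c := by
      intro f
      rw [Finset.mul_sum]
      exact Finset.sum_congr rfl (fun c _ => by ring)
    rw [e1 a, e1 b] at h
    simp only [pow_zero, mul_one] at h
    have h0 : a 0 = b 0 := by
      have := congrArg (fun x => x % B) h
      simp only [Nat.mul_add_mod] at this
      rwa [Nat.mod_eq_of_lt (ha 0 (by omega)), Nat.mod_eq_of_lt (hb 0 (by omega))] at this
    have h1 : ∑ c ∈ Finset.range n, a (c + 1) * B ^ c = ∑ c ∈ Finset.range n, b (c + 1) * B ^ c := by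
      rw [h0] at h
      exact Nat.eq_of_mul_eq_mul_left hB (Nat.add_right_cancel h)
    have h2 := dig B hB n (fun c => a (c + 1)) (fun c => b (c + 1)) (fun c hc => ha _ (by omega))
      (fun c hc => hb _ (by omega)) h1
    intro c hc
    rcases Nat.eq_zero_or_pos c with h3 | h3
    · rw [h3]; exact h0
    · have := h2 (c - 1) (by omega)
      rwa [Nat.sub_add_cancel h3] at this

/-- The number of letters `c` among the first `n`. -/
def Nc (c n : ℕ) : ℕ := ∑ i ∈ Finset.range n, if w i = c then 1 else 0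

lemma Nc_E (c n : ℕ) : ((Nc c n : ℕ) : ℤ) = E c n := by
  rw [Nc, E, S]; push_cast; rfl

lemma Nc_le (c n : ℕ) : Nc c n ≤ n := by
  rw [Nc]
  calc ∑ i ∈ Finset.range n, (if w i = c then 1 else 0) ≤ ∑ i ∈ Finset.range n, 1 :=
        Finset.sum_le_sum (fun i _ => by split_ifs <;> omega)
    _ = n := by simp

lemma Nc_succ (c n : ℕ) : Nc c (n + 1) = Nc c n + if w n = c then 1 else 0 := by
  rw [Nc, Nc, Finset.sum_range_succ]

lemma sum_E (n : ℕ) : ∑ c ∈ Finset.range 10, E c n = n := by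
  have := S_lin (fun _ => 1) n
  simp only [one_mul] at this
  rw [← this, S]; simp

theorem asf' {i j k : ℕ} (h : ∀ c < 10, E c i + E c k = 2 * E c j) : i = j ∧ k = j := by
  have hs : (i : ℤ) + k = 2 * j := by
    rw [← sum_E i, ← sum_E k, ← sum_E j, ← Finset.sum_add_distrib, Finset.mul_sum]
    exact Finset.sum_congr rfl (fun c hc => h c (Finset.mem_range.mp hc))
  rcases le_total i k with h1 | h1
  · obtain ⟨h2, h3⟩ := asf k i j (by omega) (by omega) h
    omega
  · obtain ⟨h2, h3⟩ := asf i k j (by omega) (by omega) (fun c hc => by linarith [h c hc])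
    omega

/-- Coded Parikh vector. -/
def U (B n : ℕ) : ℕ := ∑ c ∈ Finset.range 10, Nc c n * B ^ c

lemma U_succ (B n : ℕ) : U B (n + 1) = U B n + B ^ w n := by
  rw [U, U]
  have : ∑ c ∈ Finset.range 10, (if w n = c then 1 else 0) * B ^ c = B ^ w n := by
    simp [w_lt n]
  rw [← this, ← Finset.sum_add_distrib]
  refine Finset.sum_congr rfl (fun c _ => ?_)
  rw [Nc_succ]; ring

/-- The exponents. -/
def e (B j : ℕ) : ℕ := U B ((j + 1) / 2) + B ^ 10 * U B (j / 2)

lemma e_step (B j : ℕ) : ∃ c, c < 20 ∧ e B (j + 1) = e B j + B ^ c := by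
  rcases Nat.even_or_odd' j with ⟨m, rfl | rfl⟩
  · refine ⟨w m, by have := w_lt m; omega, ?_⟩
    rw [e, e, show (2 * m + 1 + 1) / 2 = m + 1 by omega, show (2 * m + 1) / 2 = m by omega,
      show 2 * m / 2 = m by omega, U_succ]
    ring
  · refine ⟨10 + w m, by have := w_lt m; omega, ?_⟩
    rw [e, e, show (2 * m + 1 + 1 + 1) / 2 = m + 1 by omega,
      show (2 * m + 1 + 1) / 2 = m + 1 by omega, show (2 * m + 1) / 2 = m by omega, U_succ]
    ring

/-- The digits of the exponents. -/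
def dg (j c : ℕ) : ℕ := if c < 10 then Nc c ((j + 1) / 2) else Nc (c - 10) (j / 2)

lemma dg_le (j c : ℕ) : dg j c ≤ j := by
  unfold dg
  split_ifs
  · exact (Nc_le _ _).trans (by omega)
  · exact (Nc_le _ _).trans (by omega)

lemma e_dg (B j : ℕ) : e B j = ∑ c ∈ Finset.range 20, dg j c * B ^ c := by
  have hA : ∑ c ∈ Finset.range 10, dg j c * B ^ c = U B ((j + 1) / 2) := by
    rw [U]
    refine Finset.sum_congr rfl (fun c hc => ?_)
    rw [dg, if_pos (Finset.mem_range.mp hc)]
  have hB : ∑ c ∈ Finset.range 10, dg j (10 + c) * B ^ (10 + c) = B ^ 10 * U B (j / 2) := by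
    rw [U, Finset.mul_sum]
    refine Finset.sum_congr rfl (fun c hc => ?_)
    rw [dg, if_neg (by omega), Nat.add_sub_cancel_left, pow_add]; ring
  rw [show (20 : ℕ) = 10 + 10 by rfl, Finset.sum_range_add, hA, hB, e]

lemma dig4 {B L i k j l : ℕ} (hB : 2 * L < B) (hi : i ≤ L) (hk : k ≤ L) (hj : j ≤ L) (hl : l ≤ L)
    (h : e B i + e B k = e B j + e B l) : ∀ c < 20, dg i c + dg k c = dg j c + dg l c := by
  refine dig B (by omega) 20 (fun c => dg i c + dg k c) (fun c => dg j c + dg l c) ?_ ?_ ?_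
  · intro c _
    have h1 := dg_le i c
    have h2 := dg_le k c
    show dg i c + dg k c < B
    omega
  · intro c _
    have h1 := dg_le j c
    have h2 := dg_le l c
    show dg j c + dg l c < B
    omega
  · simp only [add_mul, Finset.sum_add_distrib]
    rw [← e_dg, ← e_dg, ← e_dg, ← e_dg]
    exact h

lemma dgA (j c : ℕ) (hc : c < 10) : dg j c = Nc c ((j + 1) / 2) := by rw [dg, if_pos hc]

lemma dgB (j c : ℕ) : dg j (10 + c) = Nc c (j / 2) := by
  rw [dg, if_neg (by omega), Nat.add_sub_cancel_left]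

lemma sum_Nc (n : ℕ) : ∑ c ∈ Finset.range 10, Nc c n = n := by
  have := sum_E n
  have h2 : ((∑ c ∈ Finset.range 10, Nc c n : ℕ) : ℤ) = n := by
    push_cast
    rw [Finset.sum_congr rfl (fun c _ => Nc_E c n)]
    exact this
  exact_mod_cast h2

lemma sum_dg (j : ℕ) : ∑ c ∈ Finset.range 20, dg j c = j := by
  rw [show (20 : ℕ) = 10 + 10 by rfl, Finset.sum_range_add,
    Finset.sum_congr rfl (fun c hc => dgA j c (Finset.mem_range.mp hc)),
    Finset.sum_congr rfl (fun c _ => dgB j c), sum_Nc, sum_Nc]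
  omega

theorem P1 {B L i k j : ℕ} (hB : 2 * L < B) (hi : i ≤ L) (hk : k ≤ L) (hj : j ≤ L)
    (h : e B i + e B k = 2 * e B j) : i = j ∧ k = j := by
  have hd := dig4 hB hi hk hj hj (by rw [h, two_mul])
  have h1 : (i + 1) / 2 = (j + 1) / 2 ∧ (k + 1) / 2 = (j + 1) / 2 := by
    apply asf'
    intro c hc
    have := hd c (by omega)
    rw [dgA _ _ hc, dgA _ _ hc, dgA _ _ hc] at this
    rw [← Nc_E, ← Nc_E, ← Nc_E]
    omega
  have h2 : i / 2 = j / 2 ∧ k / 2 = j / 2 := by
    apply asf'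
    intro c hc
    have := hd (10 + c) (by omega)
    rw [dgB, dgB, dgB] at this
    rw [← Nc_E, ← Nc_E, ← Nc_E]
    omega
  omega

theorem P2 {B L i k j : ℕ} (hB : 2 * L < B) (hi : i ≤ L) (hk : k ≤ L) (hj : j + 1 ≤ L)
    (h : e B i + e B k = e B j + e B (j + 1)) : (i = j ∧ k = j + 1) ∨ (i = j + 1 ∧ k = j) := by
  have hd := dig4 hB hi hk (by omega) hj h
  have hs : i + k = j + (j + 1) := by
    have h1 := sum_dg i
    have h2 := sum_dg k
    have h3 := sum_dg j
    have h4 := sum_dg (j + 1)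
    have h5 : ∑ c ∈ Finset.range 20, (dg i c + dg k c) =
        ∑ c ∈ Finset.range 20, (dg j c + dg (j + 1) c) :=
      Finset.sum_congr rfl (fun c hc => hd c (Finset.mem_range.mp hc))
    rw [Finset.sum_add_distrib, Finset.sum_add_distrib] at h5
    omega
  rcases Nat.even_or_odd' j with ⟨m, hm | hm⟩
  · have h2 : i / 2 = m ∧ k / 2 = m := by
      apply asf'
      intro c hc
      have := hd (10 + c) (by omega)
      rw [dgB, dgB, dgB, dgB, hm, show 2 * m / 2 = m by omega,
        show (2 * m + 1) / 2 = m by omega] at this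
      rw [← Nc_E, ← Nc_E, ← Nc_E]
      omega
    omega
  · have h1 : (i + 1) / 2 = m + 1 ∧ (k + 1) / 2 = m + 1 := by
      apply asf'
      intro c hc
      have := hd c (by omega)
      rw [dgA _ _ hc, dgA _ _ hc, dgA _ _ hc, dgA _ _ hc, hm,
        show (2 * m + 1 + 1) / 2 = m + 1 by omega,
        show (2 * m + 1 + 1 + 1) / 2 = m + 1 by omega] at this
      rw [← Nc_E, ← Nc_E, ← Nc_E]
      omega
    omega

lemma e_inj {B L i j : ℕ} (hB : 2 * L < B) (hi : i ≤ L) (hj : j ≤ L) (h : e B i = e B j) :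
    i = j := (P1 hB hi hi hj (by rw [h, two_mul])).1

end Pool.Agent.V11151.DD.W
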