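import Pool.Agent.V11151.DD.Core
import Pool.Agent.V11151.DD.Exp

open Polynomial

namespace Pool.Agent.V11151.DD

/-- The image of a polynomial when the powers of `X` are sent to the powers of `z` with the
exponents `W.e B`. -/
noncomputable def phi (z : ℂ) (B L : ℕ) (V : ℤ[X]) : ℂ :=
  ∑ j ∈ Finset.range (L + 1), (V.coeff j : ℂ) * z ^ W.e B j

lemma phi_sub (z : ℂ) (B L : ℕ) (V V' : ℤ[X]) :
    phi z B L (V - V') = phi z B L V - phi z B L V' := by
  rw [phi, phi, phi, ← Finset.sum_sub_distrib]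
  refine Finset.sum_congr rfl (fun j _ => ?_)
  rw [coeff_sub]; push_cast; ring

lemma phi_neg (z : ℂ) (B L : ℕ) (V : ℤ[X]) : phi z B L (-V) = - phi z B L V := by
  rw [phi, phi, ← Finset.sum_neg_distrib]
  refine Finset.sum_congr rfl (fun j _ => ?_)
  rw [coeff_neg]; push_cast; ring

lemma phi_pow (z : ℂ) (B : ℕ) {L k : ℕ} (hk : k ≤ L) : phi z B L (X ^ k) = z ^ W.e B k := by
  rw [phi]
  have : ∀ j ∈ Finset.range (L + 1), (((X ^ k : ℤ[X]).coeff j : ℤ) : ℂ) * z ^ W.e B j =
      if j = k then z ^ W.e B k else 0 := by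
    intro j _
    rw [coeff_X_pow]
    split_ifs with h
    · rw [h]; simp
    · simp
  rw [Finset.sum_congr rfl this, Finset.sum_ite_eq' ]
  rw [if_pos (Finset.mem_range.mpr (by omega))]

/-- Conjugation of a power. -/
lemma conj_pow {z : ℂ} (hz : ‖z‖ = 1) (a : ℕ) : z ^ a * (starRingEnd ℂ) (z ^ a) = 1 := by
  rw [Complex.mul_conj, Complex.normSq_eq_norm_sq, norm_pow, hz]
  simp

theorem reflect {z : ℂ} (hz : ‖z‖ = 1) (ht : Transcendental ℤ z) {L S m : ℕ} {e : ℕ → ℕ}
    (hinj : ∀ i j, i ≤ L → j ≤ L → e i = e j → i = j) (hS : ∀ j, j ≤ L → e j ≤ S)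
    (eps : ℤ) (n : ℕ → ℤ)
    (h : ∑ j ∈ Finset.range (L + 1), (n j : ℂ) * z ^ e j = (eps : ℂ) * z ^ m *
      (starRingEnd ℂ) (∑ j ∈ Finset.range (L + 1), (n j : ℂ) * z ^ e j)) :
    ∀ j₀, j₀ ≤ L → n j₀ = eps * ∑ j ∈ Finset.range (L + 1), if e j + e j₀ = m then n j else 0 := by
  intro j₀ hj₀
  let Q : ℤ[X] := (∑ j ∈ Finset.range (L + 1), C (n j) * X ^ (S + e j)) -
    C eps * ∑ j ∈ Finset.range (L + 1), C (n j) * X ^ (S + m - e j)
  have hQ : aeval z Q = 0 := by
    have e1 : aeval z Q = (∑ j ∈ Finset.range (L + 1), (n j : ℂ) * z ^ (S + e j)) -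
        (eps : ℂ) * ∑ j ∈ Finset.range (L + 1), (n j : ℂ) * z ^ (S + m - e j) := by
      simp [Q]
    have e2 : ∑ j ∈ Finset.range (L + 1), (n j : ℂ) * z ^ (S + e j) =
        z ^ S * ∑ j ∈ Finset.range (L + 1), (n j : ℂ) * z ^ e j := by
      rw [Finset.mul_sum]
      exact Finset.sum_congr rfl (fun j _ => by rw [pow_add]; ring)
    have e3 : ∑ j ∈ Finset.range (L + 1), (n j : ℂ) * z ^ (S + m - e j) =
        z ^ (S + m) * (starRingEnd ℂ) (∑ j ∈ Finset.range (L + 1), (n j : ℂ) * z ^ e j) := by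
      rw [map_sum, Finset.mul_sum]
      refine Finset.sum_congr rfl (fun j hj => ?_)
      have hle : e j ≤ S + m := (hS j (by have := Finset.mem_range.mp hj; omega)).trans (by omega)
      have h1 : z ^ (S + m) = z ^ (S + m - e j) * z ^ e j := by
        rw [← pow_add, Nat.sub_add_cancel hle]
      rw [map_mul, h1]
      have h2 := conj_pow hz (e j)
      have h3 : (starRingEnd ℂ) ((n j : ℤ) : ℂ) = ((n j : ℤ) : ℂ) := by simp
      rw [h3]
      linear_combination (-(n j : ℂ) * z ^ (S + m - e j)) * h2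
    rw [e1, e2, e3, pow_add]
    linear_combination z ^ S * h
  have hQ0 : Q = 0 := by
    by_contra hne
    exact ht ⟨Q, hne, hQ⟩
  have hc := congrArg (fun q : ℤ[X] => q.coeff (S + e j₀)) hQ0
  simp only [Q, coeff_sub, coeff_zero, finsetSum_coeff, coeff_C_mul, coeff_X_pow] at hc
  have s1 : ∑ j ∈ Finset.range (L + 1), n j * (if S + e j₀ = S + e j then 1 else 0) = n j₀ := by
    rw [Finset.sum_eq_single j₀]
    · simp
    · intro j hj hne
      rw [if_neg, mul_zero]
      intro he
      exact hne (hinj j j₀ (by have := Finset.mem_range.mp hj; omega) hj₀ (by omega))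
    · intro hj
      exact absurd (Finset.mem_range.mpr (by omega)) hj
  have s2 : ∑ j ∈ Finset.range (L + 1), n j * (if S + e j₀ = S + m - e j then 1 else 0) =
      ∑ j ∈ Finset.range (L + 1), if e j + e j₀ = m then n j else 0 := by
    refine Finset.sum_congr rfl (fun j hj => ?_)
    have hle : e j ≤ S := hS j (by have := Finset.mem_range.mp hj; omega)
    by_cases hh : e j + e j₀ = m
    · rw [if_pos hh, if_pos (by omega), mul_one]
    · rw [if_neg hh, if_neg (by omega), mul_zero]
  rw [s1, s2] at hc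
  linarith

lemma T.shape {P Q : ℤ[X]} {R : Set ℤ[X]} (h : T P Q R) : ∃ k : ℕ,
    (P - Q = X ^ k ∨ P - Q = - X ^ k) ∨
      (P - Q = X ^ k - X ^ (k + 1) ∨ P - Q = - (X ^ k - X ^ (k + 1))) := by
  induction h with
  | side k p h => exact ⟨k, Or.inl (Or.inr (by ring))⟩
  | dpos k p h hp => exact ⟨k, Or.inr (Or.inr (by ring))⟩
  | dneg k p h hp => exact ⟨k, Or.inr (Or.inr (by ring))⟩
  | symm P Q R h ih =>
    obtain ⟨k, (h | h) | (h | h)⟩ := ih
    · exact ⟨k, Or.inl (Or.inr (by rw [← h]; ring))⟩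
    · exact ⟨k, Or.inl (Or.inl (by rw [← neg_sub, h]; ring))⟩
    · exact ⟨k, Or.inr (Or.inr (by rw [← h]; ring))⟩
    · exact ⟨k, Or.inr (Or.inl (by rw [← neg_sub, h]; ring))⟩

/-- All vertices are different. -/
theorem phi_inj {z : ℂ} (hz : ‖z‖ = 1) (ht : Transcendental ℤ z) {B L : ℕ} (hB : 2 * L < B)
    {V V' : ℤ[X]} (hV : ∀ j, L < j → V.coeff j = 0) (hV' : ∀ j, L < j → V'.coeff j = 0)
    (h : phi z B L V = phi z B L V') : V = V' := by
  have h0 : phi z B L (V - V') = 0 := by rw [phi_sub, h, sub_self]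
  have hS : ∀ j, j ≤ L → W.e B j ≤ ∑ i ∈ Finset.range (L + 1), W.e B i := fun j hj =>
    Finset.single_le_sum (f := fun i => W.e B i) (fun _ _ => Nat.zero_le _)
      (Finset.mem_range.mpr (by omega))
  have key := reflect hz ht (m := 4 * (∑ i ∈ Finset.range (L + 1), W.e B i) + 1)
    (e := W.e B) (fun i j hi hj hij => W.e_inj hB hi hj hij) hS 1
    (fun j => (V - V').coeff j) (by
      have : ∑ j ∈ Finset.range (L + 1), (((V - V').coeff j : ℤ) : ℂ) * z ^ W.e B j = 0 := h0
      rw [this]; simp)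
  ext j
  rcases le_or_gt j L with hj | hj
  · have h1 := key j hj
    rw [Finset.sum_eq_zero, mul_zero, coeff_sub, sub_eq_zero] at h1
    · exact h1
    · intro i hi
      have h2 := hS i (by have := Finset.mem_range.mp hi; omega)
      have h3 := hS j hj
      rw [if_neg (by omega)]
  · rw [hV j hj, hV' j hj]

/-- No vertex lies on an edge. -/
theorem no_incidence {z : ℂ} (hz : ‖z‖ = 1) (ht : Transcendental ℤ z) {B L : ℕ} (hB : 2 * L < B)
    {P Q V : ℤ[X]} {R : Set ℤ[X]} (hT : T P Q R) (hP : ∀ j, L < j → P.coeff j = 0)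
    (hQ : ∀ j, L < j → Q.coeff j = 0) {t : ℝ} (ht0 : 0 < t) (ht1 : t < 1)
    (h : phi z B L V = phi z B L P + (t : ℂ) * (phi z B L Q - phi z B L P)) : False := by
  have hS : ∀ j, j ≤ L → W.e B j ≤ ∑ i ∈ Finset.range (L + 1), W.e B i := fun j hj =>
    Finset.single_le_sum (f := fun i => W.e B i) (fun _ _ => Nat.zero_le _)
      (Finset.mem_range.mpr (by omega))
  have hinj : ∀ i j, i ≤ L → j ≤ L → W.e B i = W.e B j → i = j :=
    fun i j hi hj hij => W.e_inj hB hi hj hij
  have hz0 : z ≠ 0 := by intro h0; rw [h0, norm_zero] at hz; norm_num at hz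
  have hcoef : ∀ j, (P - Q).coeff j ≠ 0 → j ≤ L := by
    intro j hj
    by_contra hcon
    apply hj
    rw [coeff_sub, hP j (by omega), hQ j (by omega), sub_zero]
  have hW : phi z B L (V - P) = -(t : ℂ) * phi z B L (P - Q) := by
    rw [phi_sub, phi_sub, h]; ring
  obtain ⟨k, hk | hk⟩ := hT.shape
  · have hkL : k ≤ L := by
      apply hcoef
      rcases hk with hk | hk <;> rw [hk] <;> simp
    obtain ⟨s, hs, hsW⟩ : ∃ s : ℝ, (s = -t ∨ s = t) ∧ phi z B L (V - P) = (s : ℂ) * z ^ W.e B k := by
      rcases hk with hk | hk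
      · refine ⟨-t, Or.inl rfl, ?_⟩
        rw [hW, hk, phi_pow z B hkL]; push_cast; ring
      · refine ⟨t, Or.inr rfl, ?_⟩
        rw [hW, hk, phi_neg, phi_pow z B hkL]; ring
    have key := reflect hz ht (m := 2 * W.e B k) hinj hS 1 (fun j => (V - P).coeff j) (by
      have h1 : ∑ j ∈ Finset.range (L + 1), (((V - P).coeff j : ℤ) : ℂ) * z ^ W.e B j =
        (s : ℂ) * z ^ W.e B k := hsW
      rw [h1, map_mul, Complex.conj_ofReal, two_mul, pow_add]
      have h2 := conj_pow hz (W.e B k)
      push_cast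
      linear_combination (-(s : ℂ) * z ^ W.e B k) * h2)
    have hzero : ∀ j, j ≤ L → j ≠ k → (V - P).coeff j = 0 := by
      intro j hj hne
      have h1 := key j hj
      rw [Finset.sum_eq_zero, mul_zero] at h1
      · exact h1
      · intro i hi
        rw [if_neg]
        intro he
        exact hne (W.P1 hB (by have := Finset.mem_range.mp hi; omega) hj hkL he).2
    have hsum : phi z B L (V - P) = ((V - P).coeff k : ℂ) * z ^ W.e B k := by
      rw [phi, Finset.sum_eq_single k]
      · intro j hj hne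
        rw [hzero j (by have := Finset.mem_range.mp hj; omega) hne]; simp
      · intro hj; exact absurd (Finset.mem_range.mpr (by omega)) hj
    have hsn : (s : ℂ) = ((V - P).coeff k : ℤ) := by
      have h1 := hsW.symm.trans hsum
      exact mul_right_cancel₀ (pow_ne_zero _ hz0) h1
    have hsn' : s = ((V - P).coeff k : ℤ) := by exact_mod_cast hsn
    generalize (V - P).coeff k = a at hsn'
    rcases hs with hs | hs
    · have h1 : (a : ℝ) < 0 := by rw [← hsn', hs]; linarith
      have h2 : (-1 : ℝ) < a := by rw [← hsn', hs]; linarith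
      have h3 : a < 0 := by exact_mod_cast h1
      have h4 : -1 < a := by exact_mod_cast h2
      omega
    · have h1 : (0 : ℝ) < a := by rw [← hsn', hs]; linarith
      have h2 : (a : ℝ) < 1 := by rw [← hsn', hs]; linarith
      have h3 : 0 < a := by exact_mod_cast h1
      have h4 : a < 1 := by exact_mod_cast h2
      omega
  · have hkL : k + 1 ≤ L := by
      apply hcoef
      rcases hk with hk | hk <;> rw [hk] <;> simp [coeff_X_pow]
    have hkL' : k ≤ L := by omega
    have hphi : phi z B L (X ^ k - X ^ (k + 1)) = z ^ W.e B k - z ^ W.e B (k + 1) := by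
      rw [phi_sub, phi_pow z B hkL', phi_pow z B hkL]
    obtain ⟨s, hs, hsW⟩ : ∃ s : ℝ, (s = -t ∨ s = t) ∧
        phi z B L (V - P) = (s : ℂ) * (z ^ W.e B k - z ^ W.e B (k + 1)) := by
      rcases hk with hk | hk
      · refine ⟨-t, Or.inl rfl, ?_⟩
        rw [hW, hk, hphi]; push_cast; ring
      · refine ⟨t, Or.inr rfl, ?_⟩
        rw [hW, hk, phi_neg, hphi]; ring
    have key := reflect hz ht (m := W.e B k + W.e B (k + 1)) hinj hS (-1)
      (fun j => (V - P).coeff j) (by
      have h1 : ∑ j ∈ Finset.range (L + 1), (((V - P).coeff j : ℤ) : ℂ) * z ^ W.e B j =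
        (s : ℂ) * (z ^ W.e B k - z ^ W.e B (k + 1)) := hsW
      rw [h1, map_mul, Complex.conj_ofReal, map_sub, pow_add]
      have h2 := conj_pow hz (W.e B k)
      have h3 := conj_pow hz (W.e B (k + 1))
      push_cast
      linear_combination ((s : ℂ) * z ^ W.e B (k + 1)) * h2 - ((s : ℂ) * z ^ W.e B k) * h3)
    have hzero : ∀ j, j ≤ L → j ≠ k → j ≠ k + 1 → (V - P).coeff j = 0 := by
      intro j hj hne hne'
      have h1 := key j hj
      rw [Finset.sum_eq_zero, mul_zero] at h1
      · exact h1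
      · intro i hi
        rw [if_neg]
        intro he
        rcases W.P2 hB (by have := Finset.mem_range.mp hi; omega) hj hkL he with h2 | h2
        · exact hne' h2.2
        · exact hne h2.2
    have hopp : (V - P).coeff (k + 1) = - (V - P).coeff k := by
      have h1 := key (k + 1) hkL
      rw [Finset.sum_eq_single k] at h1
      · rw [if_pos rfl] at h1
        rw [h1]; ring
      · intro i hi hne
        rw [if_neg]
        intro he
        rcases W.P2 hB (by have := Finset.mem_range.mp hi; omega) hkL hkL he with h2 | h2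
        · exact hne h2.1
        · omega
      · intro hj; exact absurd (Finset.mem_range.mpr (by omega)) hj
    have hsum : phi z B L (V - P) =
        ((V - P).coeff k : ℂ) * (z ^ W.e B k - z ^ W.e B (k + 1)) := by
      have h1 : phi z B L (V - P) = ∑ j ∈ Finset.range (L + 1),
          ((if j = k then ((V - P).coeff k : ℂ) * z ^ W.e B k else 0) +
            (if j = k + 1 then -((V - P).coeff k : ℂ) * z ^ W.e B (k + 1) else 0)) := by
        rw [phi]
        refine Finset.sum_congr rfl (fun j hj => ?_)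
        by_cases h1 : j = k
        · subst h1
          rw [if_pos rfl, if_neg (by omega), add_zero]
        · by_cases h2 : j = k + 1
          · rw [if_neg h1, if_pos h2, h2, hopp]; push_cast; ring
          · rw [if_neg h1, if_neg h2, hzero j (by have := Finset.mem_range.mp hj; omega) h1 h2]
            simp
      rw [h1, Finset.sum_add_distrib, Finset.sum_ite_eq', Finset.sum_ite_eq',
        if_pos (Finset.mem_range.mpr (by omega)), if_pos (Finset.mem_range.mpr (by omega))]
      ring
    have hne : z ^ W.e B k - z ^ W.e B (k + 1) ≠ 0 := by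
      intro h0
      have h1 : phi z B L (X ^ k) = phi z B L (X ^ (k + 1)) := by
        rw [phi_pow z B hkL', phi_pow z B hkL]; exact sub_eq_zero.mp h0
      have h2 := phi_inj hz ht hB (fun j hj => by rw [coeff_X_pow, if_neg (by omega)])
        (fun j hj => by rw [coeff_X_pow, if_neg (by omega)]) h1
      have h3 := congrArg (fun q : ℤ[X] => q.coeff k) h2
      simp [coeff_X_pow] at h3
    have hsn : (s : ℂ) = ((V - P).coeff k : ℤ) := by
      have h1 := hsW.symm.trans hsum
      exact mul_right_cancel₀ hne h1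
    have hsn' : s = ((V - P).coeff k : ℤ) := by exact_mod_cast hsn
    generalize (V - P).coeff k = a at hsn'
    rcases hs with hs | hs
    · have h1 : (a : ℝ) < 0 := by rw [← hsn', hs]; linarith
      have h2 : (-1 : ℝ) < a := by rw [← hsn', hs]; linarith
      have h3 : a < 0 := by exact_mod_cast h1
      have h4 : -1 < a := by exact_mod_cast h2
      omega
    · have h1 : (0 : ℝ) < a := by rw [← hsn', hs]; linarith
      have h2 : (a : ℝ) < 1 := by rw [← hsn', hs]; linarith
      have h3 : 0 < a := by exact_mod_cast h1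
      have h4 : a < 1 := by exact_mod_cast h2
      omega

/-- The edge lengths. -/
theorem edge_length {z : ℂ} (hz : ‖z‖ = 1) {B L : ℕ} {P Q : ℤ[X]} {R : Set ℤ[X]} (hT : T P Q R)
    (hP : ∀ j, L < j → P.coeff j = 0) (hQ : ∀ j, L < j → Q.coeff j = 0) :
    ‖phi z B L P - phi z B L Q‖ = 1 ∨
      ∃ c, c < 20 ∧ ‖phi z B L P - phi z B L Q‖ = ‖1 - z ^ (B ^ c)‖ := by
  have hcoef : ∀ j, (P - Q).coeff j ≠ 0 → j ≤ L := by
    intro j hj
    by_contra hcon
    apply hj
    rw [coeff_sub, hP j (by omega), hQ j (by omega), sub_zero]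
  rw [← phi_sub]
  obtain ⟨k, hk | hk⟩ := hT.shape
  · left
    have hkL : k ≤ L := by
      apply hcoef
      rcases hk with hk | hk <;> rw [hk] <;> simp
    rcases hk with hk | hk
    · rw [hk, phi_pow z B hkL, norm_pow, hz, one_pow]
    · rw [hk, phi_neg, norm_neg, phi_pow z B hkL, norm_pow, hz, one_pow]
  · right
    have hkL : k + 1 ≤ L := by
      apply hcoef
      rcases hk with hk | hk <;> rw [hk] <;> simp [coeff_X_pow]
    have hphi : phi z B L (X ^ k - X ^ (k + 1)) = z ^ W.e B k - z ^ W.e B (k + 1) := by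
      rw [phi_sub, phi_pow z B (by omega), phi_pow z B hkL]
    obtain ⟨c, hc, he⟩ := W.e_step B k
    refine ⟨c, hc, ?_⟩
    have h1 : ‖phi z B L (X ^ k - X ^ (k + 1))‖ = ‖1 - z ^ (B ^ c)‖ := by
      rw [hphi, he, pow_add, show z ^ W.e B k - z ^ W.e B k * z ^ B ^ c =
        z ^ W.e B k * (1 - z ^ B ^ c) by ring, norm_mul, norm_pow, hz, one_pow, one_mul]
    rcases hk with hk | hk
    · rw [hk, h1]
    · rw [hk, phi_neg, norm_neg, h1]

end Pool.Agent.V11151.DD
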