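import Pool.Agent.V11151.DD.Core

open Polynomial

namespace Pool.Agent.V11151.DD

/-- There is a transcendental complex number of absolute value one. -/
theorem exists_z : ∃ z : ℂ, ‖z‖ = 1 ∧ Transcendental ℤ z := by
  have ht : Transcendental ℤ (liouvilleNumber ((2 : ℕ) : ℝ)) :=
    transcendental_liouvilleNumber (m := 2) le_rfl
  set t : ℝ := liouvilleNumber ((2 : ℕ) : ℝ) with htdef
  have hden : (1 : ℂ) - (t : ℂ) * Complex.I ≠ 0 := by
    intro h
    have := congrArg Complex.re h
    simp at this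
  refine ⟨(1 + (t : ℂ) * Complex.I) / (1 - (t : ℂ) * Complex.I), ?_, ?_⟩
  · have h1 : (1 : ℂ) - (t : ℂ) * Complex.I = (starRingEnd ℂ) (1 + (t : ℂ) * Complex.I) := by
      simp [sub_eq_add_neg]
    rw [norm_div, h1, Complex.norm_conj]
    refine div_self ?_
    rw [← Complex.norm_conj, ← h1]
    exact norm_ne_zero_iff.mpr hden
  · intro hz
    apply ht
    set z : ℂ := (1 + (t : ℂ) * Complex.I) / (1 - (t : ℂ) * Complex.I) with hzdef
    have hI : IsAlgebraic ℤ Complex.I := by
      refine ⟨X ^ 2 + 1, ?_, ?_⟩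
      · intro h
        have := congrArg (fun p : ℤ[X] => p.coeff 0) h
        simp at this
      · simp
    have hz1 : z + 1 ≠ 0 := by
      intro h
      have h2 : (z + 1) * (1 - (t : ℂ) * Complex.I) = 2 := by
        rw [hzdef]; field_simp; ring
      rw [h, zero_mul] at h2
      norm_num at h2
    have h3 : (t : ℂ) = (z - 1) / (Complex.I * (z + 1)) := by
      have hI0 : Complex.I ≠ 0 := Complex.I_ne_zero
      rw [eq_div_iff (mul_ne_zero hI0 hz1)]
      have h4 : z * (1 - (t : ℂ) * Complex.I) = 1 + (t : ℂ) * Complex.I := by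
        rw [hzdef]; field_simp
      linear_combination (-1 : ℂ) * h4
    have h5 : IsAlgebraic ℤ (t : ℂ) := by
      rw [h3]
      rw [div_eq_mul_inv]
      exact (hz.sub (isAlgebraic_one)).mul (hI.mul (hz.add isAlgebraic_one)).inv
    have h6 : IsAlgebraic ℤ (algebraMap ℝ ℂ t) := h5
    exact (isAlgebraic_algebraMap_iff (algebraMap ℝ ℂ).injective).mp h6

end Pool.Agent.V11151.DD
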