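import Mathlib

open Polynomial

namespace Pool.Agent.V11151.DD

/-- The sign of the parity. -/
def par (a : ℤ) : ℤ := if Even a then 1 else -1

lemma par_cases (a : ℤ) : par a = 1 ∨ par a = -1 := by
  unfold par; split_ifs <;> simp

lemma par_zero : par 0 = 1 := by simp [par]

lemma par_add_one (a : ℤ) : par (a + 1) = - par a := by
  unfold par
  by_cases h : Even a
  · have : ¬ Even (a + 1) := by rw [Int.even_add_one]; exact fun h' => h' h
    simp [h, this]
  · have : Even (a + 1) := by rw [Int.even_add_one]; exact h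
    simp [h, this]

lemma par_sub_one (a : ℤ) : par (a - 1) = - par a := by
  have := par_add_one (a - 1)
  rw [sub_add_cancel] at this
  rw [this]; ring

/-- The first nonzero coefficient from index `j` on exists and has the sign `s`. -/
def SG (j : ℕ) (s : ℤ) (v : ℤ[X]) : Prop :=
  ∃ m, j ≤ m ∧ (∀ i, j ≤ i → i < m → v.coeff i = 0) ∧ 0 < s * v.coeff m

lemma sg_unique {j : ℕ} {s : ℤ} {v : ℤ[X]} (h1 : SG j s v) (h2 : SG j (-s) v) : False := by
  obtain ⟨m, hm, hz, hp⟩ := h1
  obtain ⟨m', hm', hz', hp'⟩ := h2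
  rcases lt_trichotomy m m' with h | h | h
  · rw [hz' m hm h] at hp; simp at hp
  · subst h; nlinarith
  · rw [hz m' hm' h] at hp'; simp at hp'

lemma sg_zero {j : ℕ} {s : ℤ} {v : ℤ[X]} (h : ∀ i, j ≤ i → v.coeff i = 0) : ¬ SG j s v := by
  rintro ⟨m, hm, _, hp⟩
  rw [h m hm] at hp; simp at hp

lemma sg_head {j : ℕ} {s : ℤ} {v : ℤ[X]} (h : 0 < s * v.coeff j) : SG j s v :=
  ⟨j, le_rfl, fun i h1 h2 => absurd h1 (by omega), h⟩

lemma sg_tail {j : ℕ} {s : ℤ} {v : ℤ[X]} (h0 : v.coeff j = 0) (h : SG (j + 1) s v) : SG j s v := by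
  obtain ⟨m, hm, hz, hp⟩ := h
  refine ⟨m, by omega, fun i h1 h2 => ?_, hp⟩
  rcases Nat.eq_or_lt_of_le h1 with h3 | h3
  · rw [← h3]; exact h0
  · exact hz i h3 h2

/-- The region of points lying beyond the side from `p` to `p + X ^ k`. -/
def RU (k : ℕ) (p : ℤ[X]) : Set ℤ[X] :=
  {v | (∀ j, j < k → v.coeff j = p.coeff j) ∧
    (v.coeff k = p.coeff k ∨ v.coeff k = p.coeff k + 1) ∧
    (1 ≤ par (p.coeff k) * (v.coeff (k + 1) - p.coeff (k + 1)) ∨
      (v.coeff (k + 1) = p.coeff (k + 1) ∧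
        SG (k + 2) (par (p.coeff k) * par (p.coeff (k + 1))) v))}

/-- No coordinates beyond `k + 1`. -/
def okU (k : ℕ) (p : ℤ[X]) : Prop := ∀ j, k + 1 < j → p.coeff j = 0

lemma cadd (p : ℤ[X]) (n j : ℕ) : (p + X ^ n).coeff j = p.coeff j + if j = n then 1 else 0 := by
  simp [coeff_X_pow]

lemma csub (p : ℤ[X]) (n j : ℕ) : (p - X ^ n).coeff j = p.coeff j - if j = n then 1 else 0 := by
  simp [coeff_X_pow]

/-- What membership in the region of a side of height zero means. -/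
lemma side_mem {k : ℕ} {q v : ℤ[X]} (h0 : q.coeff (k + 1) = 0) (hv : v ∈ RU k q) :
    SG (k + 1) (par (q.coeff k)) v := by
  obtain ⟨_, _, h⟩ := hv
  rw [h0, par_zero] at h
  rcases h with h | ⟨h, h'⟩
  · apply sg_head
    simp only [sub_zero] at h
    linarith
  · rw [mul_one] at h'
    exact sg_tail h h'

/-- The three parts of the region beyond a side `p, p + X ^ k` with even coordinate. -/
structure Parts (k : ℕ) (p : ℤ[X]) (R C S1 S2 : Set ℤ[X]) (N1 N2 : ℤ[X]) : Prop where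
  c_sub : C ⊆ R
  s1_sub : S1 ⊆ R
  s2_sub : S2 ⊆ R
  n1_mem : N1 ∈ R
  n2_mem : N2 ∈ R
  n1_c : N1 ∉ C
  n1_s1 : N1 ∉ S1
  n1_s2 : N1 ∉ S2
  n2_c : N2 ∉ C
  n2_s1 : N2 ∉ S1
  n2_s2 : N2 ∉ S2
  n12 : N1 ≠ N2
  c_s1 : ∀ v, v ∈ C → v ∈ S1 → False
  c_s2 : ∀ v, v ∈ C → v ∈ S2 → False
  s1_s2 : ∀ v, v ∈ S1 → v ∈ S2 → False

lemma parts_pos {k : ℕ} {p : ℤ[X]} (hk : okU k p) (hp : par (p.coeff k) = 1) :
    Parts k p (RU k p) (RU k (p + X ^ (k + 1))) (RU (k + 1) p) (RU (k + 1) (p + X ^ k))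
      (p + X ^ (k + 1)) (p + X ^ k + X ^ (k + 1)) := by
  have hz : p.coeff (k + 2) = 0 := hk _ (by omega)
  have hcC : (p + X ^ (k + 1)).coeff k = p.coeff k := by rw [cadd, if_neg (by omega)]; ring
  have hcC1 : (p + X ^ (k + 1)).coeff (k + 1) = p.coeff (k + 1) + 1 := by rw [cadd, if_pos rfl]
  have hs0 : (p + X ^ k).coeff (k + 2) = 0 := by rw [cadd, if_neg (by omega), hz]; ring
  have hs1 : (p + X ^ k).coeff (k + 1) = p.coeff (k + 1) := by rw [cadd, if_neg (by omega)]; ring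
  have hs2 : (p + X ^ k).coeff k = p.coeff k + 1 := by rw [cadd, if_pos rfl]
  have tail1 : ∀ i, k + 2 ≤ i → (p + X ^ (k + 1)).coeff i = 0 := by
    intro i hi; rw [cadd, if_neg (by omega), hk i (by omega)]; ring
  have tail2 : ∀ i, k + 2 ≤ i → (p + X ^ k + X ^ (k + 1)).coeff i = 0 := by
    intro i hi; rw [cadd, cadd, if_neg (by omega), if_neg (by omega), hk i (by omega)]; ring
  have n2k : (p + X ^ k + X ^ (k + 1)).coeff k = p.coeff k + 1 := by
    rw [cadd, cadd, if_pos rfl, if_neg (by omega)]; ring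
  have n2k1 : (p + X ^ k + X ^ (k + 1)).coeff (k + 1) = p.coeff (k + 1) + 1 := by
    rw [cadd, cadd, if_neg (by omega), if_pos rfl]; ring
  have hC : ∀ v, v ∈ RU k (p + X ^ (k + 1)) → (∀ j, j < k → v.coeff j = p.coeff j) ∧
      (v.coeff k = p.coeff k ∨ v.coeff k = p.coeff k + 1) ∧
      (2 ≤ v.coeff (k + 1) - p.coeff (k + 1) ∨ (v.coeff (k + 1) = p.coeff (k + 1) + 1 ∧
        SG (k + 2) (-par (p.coeff (k + 1))) v)) := by
    rintro v ⟨h1, h2, h3⟩
    rw [hcC, hp, hcC1, par_add_one] at h3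
    rw [hcC] at h2
    refine ⟨fun j hj => ?_, h2, ?_⟩
    · rw [h1 j hj, cadd, if_neg (by omega)]; ring
    · rcases h3 with h3 | ⟨h3, h4⟩
      · left; linarith
      · right; exact ⟨h3, by simpa using h4⟩
  have hS : ∀ q : ℤ[X], q.coeff (k + 2) = 0 → q.coeff (k + 1) = p.coeff (k + 1) →
      ∀ v, v ∈ RU (k + 1) q → (v.coeff (k + 1) = p.coeff (k + 1) ∨
        v.coeff (k + 1) = p.coeff (k + 1) + 1) ∧ v.coeff k = q.coeff k ∧
        SG (k + 2) (par (p.coeff (k + 1))) v := by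
    intro q q0 q1 v hv
    refine ⟨?_, hv.1 k (by omega), ?_⟩
    · have := hv.2.1; rwa [q1] at this
    · have := side_mem q0 hv; rwa [q1] at this
  have hS1 := hS p hz rfl
  have hS2 := hS (p + X ^ k) hs0 hs1
  refine ⟨?_, ?_, ?_, ?_, ?_, ?_, ?_, ?_, ?_, ?_, ?_, ?_, ?_, ?_, ?_⟩
  · intro v hv
    obtain ⟨h1, h2, h3⟩ := hC v hv
    refine ⟨h1, h2, Or.inl ?_⟩
    rw [hp]
    rcases h3 with h3 | ⟨h3, _⟩ <;> linarith
  · intro v hv
    obtain ⟨h1, h2, h3⟩ := hS1 v hv
    refine ⟨fun j hj => hv.1 j (by omega), Or.inl h2, ?_⟩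
    rw [hp]
    rcases h1 with h1 | h1
    · right; exact ⟨h1, by simpa using h3⟩
    · left; linarith
  · intro v hv
    obtain ⟨h1, h2, h3⟩ := hS2 v hv
    refine ⟨fun j hj => ?_, Or.inr (by rw [h2, hs2]), ?_⟩
    · rw [hv.1 j (by omega), cadd, if_neg (by omega)]; ring
    · rw [hp]
      rcases h1 with h1 | h1
      · right; exact ⟨h1, by simpa using h3⟩
      · left; linarith
  · refine ⟨fun j hj => ?_, Or.inl hcC, Or.inl ?_⟩
    · rw [cadd, if_neg (by omega)]; ring
    · rw [hcC1, hp]; linarith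
  · refine ⟨fun j hj => ?_, Or.inr n2k, Or.inl ?_⟩
    · rw [cadd, cadd, if_neg (by omega), if_neg (by omega)]; ring
    · rw [n2k1, hp]; linarith
  · intro h
    obtain ⟨_, _, h3⟩ := hC _ h
    rw [hcC1] at h3
    rcases h3 with h3 | ⟨_, h3⟩
    · linarith
    · exact sg_zero tail1 h3
  · intro h; exact sg_zero tail1 (hS1 _ h).2.2
  · intro h; exact sg_zero tail1 (hS2 _ h).2.2
  · intro h
    obtain ⟨_, _, h3⟩ := hC _ h
    rw [n2k1] at h3
    rcases h3 with h3 | ⟨_, h3⟩
    · linarith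
    · exact sg_zero tail2 h3
  · intro h; exact sg_zero tail2 (hS1 _ h).2.2
  · intro h; exact sg_zero tail2 (hS2 _ h).2.2
  · intro h
    have := congrArg (fun q : ℤ[X] => q.coeff k) h
    simp only [hcC, n2k] at this
    linarith
  · intro v hv hv'
    obtain ⟨_, _, h3⟩ := hC v hv
    obtain ⟨h1, _, h4⟩ := hS1 v hv'
    rcases h3 with h3 | ⟨_, h3⟩
    · rcases h1 with h1 | h1 <;> linarith
    · exact sg_unique h4 h3
  · intro v hv hv'
    obtain ⟨_, _, h3⟩ := hC v hv
    obtain ⟨h1, _, h4⟩ := hS2 v hv'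
    rcases h3 with h3 | ⟨_, h3⟩
    · rcases h1 with h1 | h1 <;> linarith
    · exact sg_unique h4 h3
  · intro v hv hv'
    have h1 := (hS1 v hv).2.1
    have h2 := (hS2 v hv').2.1
    rw [hs2] at h2
    linarith

lemma parts_neg {k : ℕ} {p : ℤ[X]} (hk : okU k p) (hp : par (p.coeff k) = -1) :
    Parts k p (RU k p) (RU k (p - X ^ (k + 1))) (RU (k + 1) (p - X ^ (k + 1)))
      (RU (k + 1) (p + X ^ k - X ^ (k + 1)))
      (p - X ^ (k + 1)) (p + X ^ k - X ^ (k + 1)) := by
  have hz : p.coeff (k + 2) = 0 := hk _ (by omega)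
  have hcC : (p - X ^ (k + 1)).coeff k = p.coeff k := by rw [csub, if_neg (by omega)]; ring
  have hcC1 : (p - X ^ (k + 1)).coeff (k + 1) = p.coeff (k + 1) - 1 := by rw [csub, if_pos rfl]
  have hcC2 : (p - X ^ (k + 1)).coeff (k + 2) = 0 := by rw [csub, if_neg (by omega), hz]; ring
  have tail1 : ∀ i, k + 2 ≤ i → (p - X ^ (k + 1)).coeff i = 0 := by
    intro i hi; rw [csub, if_neg (by omega), hk i (by omega)]; ring
  have tail2 : ∀ i, k + 2 ≤ i → (p + X ^ k - X ^ (k + 1)).coeff i = 0 := by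
    intro i hi; rw [csub, cadd, if_neg (by omega), if_neg (by omega), hk i (by omega)]; ring
  have n2k : (p + X ^ k - X ^ (k + 1)).coeff k = p.coeff k + 1 := by
    rw [csub, cadd, if_pos rfl, if_neg (by omega)]; ring
  have n2k1 : (p + X ^ k - X ^ (k + 1)).coeff (k + 1) = p.coeff (k + 1) - 1 := by
    rw [csub, cadd, if_neg (by omega), if_pos rfl]; ring
  have hC : ∀ v, v ∈ RU k (p - X ^ (k + 1)) → (∀ j, j < k → v.coeff j = p.coeff j) ∧
      (v.coeff k = p.coeff k ∨ v.coeff k = p.coeff k + 1) ∧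
      (v.coeff (k + 1) - p.coeff (k + 1) ≤ -2 ∨ (v.coeff (k + 1) = p.coeff (k + 1) - 1 ∧
        SG (k + 2) (par (p.coeff (k + 1))) v)) := by
    rintro v ⟨h1, h2, h3⟩
    rw [hcC, hp, hcC1, par_sub_one] at h3
    rw [hcC] at h2
    refine ⟨fun j hj => ?_, h2, ?_⟩
    · rw [h1 j hj, csub, if_neg (by omega)]; ring
    · rcases h3 with h3 | ⟨h3, h4⟩
      · left; linarith
      · right; exact ⟨h3, by simpa using h4⟩
  have hS : ∀ q : ℤ[X], q.coeff (k + 2) = 0 → q.coeff (k + 1) = p.coeff (k + 1) - 1 →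
      ∀ v, v ∈ RU (k + 1) q → (v.coeff (k + 1) = p.coeff (k + 1) ∨
        v.coeff (k + 1) = p.coeff (k + 1) - 1) ∧ v.coeff k = q.coeff k ∧
        SG (k + 2) (-par (p.coeff (k + 1))) v := by
    intro q q0 q1 v hv
    refine ⟨?_, hv.1 k (by omega), ?_⟩
    · have := hv.2.1; rw [q1] at this
      rcases this with h | h
      · right; exact h
      · left; rw [h]; ring
    · have := side_mem q0 hv; rwa [q1, par_sub_one] at this
  have hS1 := hS (p - X ^ (k + 1)) hcC2 hcC1
  have hS2 := hS (p + X ^ k - X ^ (k + 1)) (tail2 _ le_rfl) n2k1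
  refine ⟨?_, ?_, ?_, ?_, ?_, ?_, ?_, ?_, ?_, ?_, ?_, ?_, ?_, ?_, ?_⟩
  · intro v hv
    obtain ⟨h1, h2, h3⟩ := hC v hv
    refine ⟨h1, h2, Or.inl ?_⟩
    rw [hp]
    rcases h3 with h3 | ⟨h3, _⟩ <;> linarith
  · intro v hv
    obtain ⟨h1, h2, h3⟩ := hS1 v hv
    refine ⟨fun j hj => ?_, Or.inl (by rw [h2, hcC]), ?_⟩
    · rw [hv.1 j (by omega), csub, if_neg (by omega)]; ring
    rw [hp]
    rcases h1 with h1 | h1
    · right; exact ⟨h1, by simpa using h3⟩
    · left; linarith
  · intro v hv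
    obtain ⟨h1, h2, h3⟩ := hS2 v hv
    refine ⟨fun j hj => ?_, Or.inr (by rw [h2, n2k]), ?_⟩
    · rw [hv.1 j (by omega), csub, cadd, if_neg (by omega), if_neg (by omega)]; ring
    · rw [hp]
      rcases h1 with h1 | h1
      · right; exact ⟨h1, by simpa using h3⟩
      · left; linarith
  · refine ⟨fun j hj => ?_, Or.inl hcC, Or.inl ?_⟩
    · rw [csub, if_neg (by omega)]; ring
    · rw [hcC1, hp]; linarith
  · refine ⟨fun j hj => ?_, Or.inr n2k, Or.inl ?_⟩
    · rw [csub, cadd, if_neg (by omega), if_neg (by omega)]; ring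
    · rw [n2k1, hp]; linarith
  · intro h
    obtain ⟨_, _, h3⟩ := hC _ h
    rw [hcC1] at h3
    rcases h3 with h3 | ⟨_, h3⟩
    · linarith
    · exact sg_zero tail1 h3
  · intro h; exact sg_zero tail1 (hS1 _ h).2.2
  · intro h; exact sg_zero tail1 (hS2 _ h).2.2
  · intro h
    obtain ⟨_, _, h3⟩ := hC _ h
    rw [n2k1] at h3
    rcases h3 with h3 | ⟨_, h3⟩
    · linarith
    · exact sg_zero tail2 h3
  · intro h; exact sg_zero tail2 (hS1 _ h).2.2
  · intro h; exact sg_zero tail2 (hS2 _ h).2.2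
  · intro h
    have := congrArg (fun q : ℤ[X] => q.coeff k) h
    simp only [hcC, n2k] at this
    linarith
  · intro v hv hv'
    obtain ⟨_, _, h3⟩ := hC v hv
    obtain ⟨h1, _, h4⟩ := hS1 v hv'
    rcases h3 with h3 | ⟨_, h3⟩
    · rcases h1 with h1 | h1 <;> linarith
    · exact sg_unique h3 h4
  · intro v hv hv'
    obtain ⟨_, _, h3⟩ := hC v hv
    obtain ⟨h1, _, h4⟩ := hS2 v hv'
    rcases h3 with h3 | ⟨_, h3⟩
    · rcases h1 with h1 | h1 <;> linarith
    · exact sg_unique h3 h4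
  · intro v hv hv'
    have h1 := (hS1 v hv).2.1
    have h2 := (hS2 v hv').2.1
    rw [n2k] at h2
    rw [hcC] at h1
    linarith

/-- Directed edges of the infinite triangulated rhombus tree, with the region beyond them. -/
inductive T : ℤ[X] → ℤ[X] → Set ℤ[X] → Prop
  | side (k : ℕ) (p : ℤ[X]) (h : okU k p) : T p (p + X ^ k) (RU k p)
  | dpos (k : ℕ) (p : ℤ[X]) (h : okU k p) (hp : par (p.coeff k) = 1) :
      T (p + X ^ (k + 1)) (p + X ^ k)
        (RU k (p + X ^ (k + 1)) ∪ RU (k + 1) (p + X ^ k) ∪ {p + X ^ k + X ^ (k + 1)})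
  | dneg (k : ℕ) (p : ℤ[X]) (h : okU k p) (hp : par (p.coeff k) = -1) :
      T p (p + X ^ k - X ^ (k + 1))
        (RU k (p - X ^ (k + 1)) ∪ RU (k + 1) (p - X ^ (k + 1)) ∪ {p - X ^ (k + 1)})
  | symm (P Q : ℤ[X]) (R : Set ℤ[X]) (h : T P Q R) : T Q P R

theorem T.split {P Q : ℤ[X]} {R : Set ℤ[X]} (h : T P Q R) :
    ∃ (A : ℤ[X]) (R1 R2 : Set ℤ[X]), T P A R1 ∧ T A Q R2 ∧ A ∈ R ∧ R1 ⊆ R ∧ R2 ⊆ R ∧
      A ∉ R1 ∧ A ∉ R2 ∧ ∀ v, v ∈ R1 → v ∈ R2 → False := by
  induction h with
  | side k p h =>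
    rcases par_cases (p.coeff k) with hp | hp
    · have PT := parts_pos h hp
      refine ⟨p + X ^ (k + 1), _, _, T.side (k + 1) p (fun j hj => h j (by omega)),
        T.dpos k p h hp, PT.n1_mem, PT.s1_sub, ?_, PT.n1_s1, ?_, ?_⟩
      · rintro v ((hv | hv) | hv)
        · exact PT.c_sub hv
        · exact PT.s2_sub hv
        · rw [Set.mem_singleton_iff] at hv; rw [hv]; exact PT.n2_mem
      · rintro ((hv | hv) | hv)
        · exact PT.n1_c hv
        · exact PT.n1_s2 hv
        · exact PT.n12 hv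
      · rintro v hv1 ((hv | hv) | hv)
        · exact PT.c_s1 v hv hv1
        · exact PT.s1_s2 v hv1 hv
        · rw [Set.mem_singleton_iff] at hv; rw [hv] at hv1; exact PT.n2_s1 hv1
    · have PT := parts_neg h hp
      have e1 : T (p + X ^ k - X ^ (k + 1)) (p + X ^ k - X ^ (k + 1) + X ^ (k + 1))
          (RU (k + 1) (p + X ^ k - X ^ (k + 1))) :=
        T.side (k + 1) _ (fun j hj => by
          rw [csub, cadd, if_neg (by omega), if_neg (by omega), h j (by omega)]; ring)
      rw [sub_add_cancel] at e1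
      refine ⟨p + X ^ k - X ^ (k + 1), _, _, T.dneg k p h hp, e1, PT.n2_mem, ?_, PT.s2_sub, ?_,
        PT.n2_s2, ?_⟩
      · rintro v ((hv | hv) | hv)
        · exact PT.c_sub hv
        · exact PT.s1_sub hv
        · rw [Set.mem_singleton_iff] at hv; rw [hv]; exact PT.n1_mem
      · rintro ((hv | hv) | hv)
        · exact PT.n2_c hv
        · exact PT.n2_s1 hv
        · exact PT.n12 (Set.mem_singleton_iff.mp hv).symm
      · rintro v ((hv | hv) | hv) hv2
        · exact PT.c_s2 v hv hv2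
        · exact PT.s1_s2 v hv hv2
        · rw [Set.mem_singleton_iff] at hv; rw [hv] at hv2; exact PT.n1_s2 hv2
  | dpos k p h hp =>
    have PT := parts_pos h hp
    have e1 : T (p + X ^ (k + 1)) (p + X ^ (k + 1) + X ^ k) (RU k (p + X ^ (k + 1))) :=
      T.side k _ (fun j hj => by rw [cadd, if_neg (by omega), h j hj]; ring)
    have e2 : T (p + X ^ k) (p + X ^ k + X ^ (k + 1)) (RU (k + 1) (p + X ^ k)) :=
      T.side (k + 1) _ (fun j hj => by rw [cadd, if_neg (by omega), h j (by omega)]; ring)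
    rw [add_right_comm] at e1
    refine ⟨p + X ^ k + X ^ (k + 1), _, _, e1, T.symm _ _ _ e2, ?_, ?_, ?_, PT.n2_c, PT.n2_s2,
      fun v h1 h2 => PT.c_s2 v h1 h2⟩
    · right; rfl
    · intro v hv; left; left; exact hv
    · intro v hv; left; right; exact hv
  | dneg k p h hp =>
    have PT := parts_neg h hp
    have e1 : T (p - X ^ (k + 1)) (p - X ^ (k + 1) + X ^ (k + 1)) (RU (k + 1) (p - X ^ (k + 1))) :=
      T.side (k + 1) _ (fun j hj => by rw [csub, if_neg (by omega), h j (by omega)]; ring)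
    have e2 : T (p - X ^ (k + 1)) (p - X ^ (k + 1) + X ^ k) (RU k (p - X ^ (k + 1))) :=
      T.side k _ (fun j hj => by rw [csub, if_neg (by omega), h j hj]; ring)
    rw [sub_add_cancel] at e1
    rw [show p - X ^ (k + 1) + X ^ k = p + X ^ k - X ^ (k + 1) by ring] at e2
    refine ⟨p - X ^ (k + 1), _, _, T.symm _ _ _ e1, e2, ?_, ?_, ?_, PT.n1_s1, PT.n1_c,
      fun v h1 h2 => PT.c_s1 v h2 h1⟩
    · right; rfl
    · intro v hv; left; right; exact hv
    · intro v hv; left; left; exact hv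
  | symm P Q R h ih =>
    obtain ⟨A, R1, R2, h1, h2, h3, h4, h5, h6, h7, h8⟩ := ih
    exact ⟨A, R2, R1, T.symm _ _ _ h2, T.symm _ _ _ h1, h3, h5, h4, h7, h6,
      fun v a b => h8 v b a⟩

/-- Drawing a noncrossing graph on an interval along a directed edge of the tree. -/
theorem draw (Adj : ℕ → ℕ → Prop)
    (hnc : ∀ a b c d, Adj a b → Adj c d → a < c → c < b → b < d → False) :
    ∀ n i j : ℕ, j - i ≤ n → i < j → ∀ (P Q : ℤ[X]) (R : Set ℤ[X]), T P Q R →
    ∃ f : ℕ → ℤ[X], f i = P ∧ f j = Q ∧ (∀ m, i < m → m < j → f m ∈ R) ∧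
      (∀ m m', i < m → m < m' → m' < j → f m ≠ f m') ∧
      (∀ a b, i ≤ a → a < b → b ≤ j → Adj a b → ∃ R', T (f a) (f b) R') := by
  intro n
  induction n with
  | zero => intro i j h1 h2; omega
  | succ n ih =>
    intro i j hn hij P Q R hT
    by_cases hj : j = i + 1
    · refine ⟨fun m => if m = i then P else Q, by simp, by simp [hj], ?_, ?_, ?_⟩
      · intro m h1 h2; omega
      · intro m m' h1 h2 h3; omega
      · intro a b h1 h2 h3 _
        have ha : a = i := by omega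
        have hb : b = i + 1 := by omega
        refine ⟨R, ?_⟩
        simp only [ha, hb, if_true]
        rw [if_neg (by omega)]
        exact hT
    · -- the apex
      have hm : ∃ m, i < m ∧ m < j ∧
          ∀ a b, i ≤ a → a < m → m < b → b ≤ j → Adj a b → a = i ∧ b = j := by
        classical
        by_cases hne : ∃ m, i < m ∧ m < j ∧ Adj i m
        · -- the largest neighbour
          let S : Finset ℕ := (Finset.range j).filter (fun m => i < m ∧ Adj i m)
          have hS : S.Nonempty := by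
            obtain ⟨m, h1, h2, h3⟩ := hne
            exact ⟨m, by simp [S, h1, h2, h3]⟩
          obtain ⟨m, hmem, hmax⟩ : ∃ m, m ∈ S ∧ ∀ b ∈ S, b ≤ m :=
            ⟨S.max' hS, S.max'_mem hS, fun b hb => S.le_max' b hb⟩
          have hmem' : m < j ∧ i < m ∧ Adj i m := by simpa [S] using hmem
          refine ⟨m, hmem'.2.1, hmem'.1, ?_⟩
          intro a b h1 h2 h3 h4 h5
          rcases Nat.eq_or_lt_of_le h1 with h6 | h6
          · subst h6
            refine ⟨rfl, ?_⟩
            by_contra h7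
            have h8 : b ∈ S := by
              simp only [S, Finset.mem_filter, Finset.mem_range]
              exact ⟨by omega, by omega, h5⟩
            have := hmax b h8
            omega
          · exact absurd (hnc i m a b hmem'.2.2 h5 h6 h2 h3) (by simp)
        · refine ⟨i + 1, by omega, by omega, ?_⟩
          intro a b h1 h2 h3 h4 h5
          have ha : a = i := by omega
          subst ha
          refine ⟨rfl, ?_⟩
          by_contra h7
          exact hne ⟨b, by omega, by omega, h5⟩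
      obtain ⟨m, him, hmj, hsep⟩ := hm
      obtain ⟨A, R1, R2, t1, t2, hA, hR1, hR2, hA1, hA2, hdis⟩ := hT.split
      obtain ⟨f1, f1i, f1m, f1R, f1inj, f1e⟩ := ih i m (by omega) him P A R1 t1
      obtain ⟨f2, f2m, f2j, f2R, f2inj, f2e⟩ := ih m j (by omega) hmj A Q R2 t2
      have hlo : ∀ t, t ≤ m → (fun t => if t ≤ m then f1 t else f2 t) t = f1 t := by
        intro t ht; simp [ht]
      have hhi : ∀ t, m ≤ t → (fun t => if t ≤ m then f1 t else f2 t) t = f2 t := by
        intro t ht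
        rcases Nat.eq_or_lt_of_le ht with h | h
        · subst h; simp [f1m, f2m]
        · simp [show ¬ t ≤ m by omega]
      refine ⟨fun t => if t ≤ m then f1 t else f2 t, ?_, ?_, ?_, ?_, ?_⟩
      · rw [hlo i him.le]; exact f1i
      · rw [hhi j hmj.le]; exact f2j
      · intro t h1 h2
        rcases lt_trichotomy t m with h | h | h
        · rw [hlo t h.le]; exact hR1 (f1R t h1 h)
        · rw [hlo t h.le, h, f1m]; exact hA
        · rw [hhi t h.le]; exact hR2 (f2R t h h2)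
      · intro t t' h1 h2 h3
        rcases lt_trichotomy t m with h | h | h
        · rw [hlo t h.le]
          rcases lt_trichotomy t' m with h' | h' | h'
          · rw [hlo t' h'.le]; exact f1inj t t' h1 h2 h'
          · rw [hlo t' h'.le, h', f1m]
            intro he; exact hA1 (he ▸ f1R t h1 h)
          · rw [hhi t' h'.le]
            intro he; exact hdis _ (f1R t h1 h) (he ▸ f2R t' h' h3)
        · have h' : m < t' := by omega
          rw [hlo t h.le, hhi t' h'.le, h, f1m]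
          intro he; exact hA2 (he ▸ f2R t' h' h3)
        · rw [hhi t h.le, hhi t' (by omega)]
          exact f2inj t t' h h2 h3
      · intro a b h1 h2 h3 h4
        rcases le_or_gt b m with h | h
        · rw [hlo a (by omega), hlo b h]; exact f1e a b h1 h2 h h4
        · rcases le_or_gt m a with h' | h'
          · rw [hhi a h', hhi b h.le]; exact f2e a b h' h2 h3 h4
          · obtain ⟨ha, hb⟩ := hsep a b h1 h' h h3 h4
            rw [hlo a h'.le, hhi b h.le, ha, hb, f1i, f2j]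
            exact ⟨R, hT⟩

/-- The lengths of the edges of the tree. -/
theorem T.length {P Q : ℤ[X]} {R : Set ℤ[X]} (h : T P Q R) {z : ℂ} (hz : ‖z‖ = 1) :
    ‖aeval z P - aeval z Q‖ = 1 ∨ ‖aeval z P - aeval z Q‖ = ‖1 - z‖ := by
  induction h with
  | side k p h =>
    left
    simp [hz]
  | dpos k p h hp =>
    right
    have : aeval z (p + X ^ (k + 1)) - aeval z (p + X ^ k) = - (z ^ k * (1 - z)) := by
      simp only [map_add, map_pow, aeval_X]; ring
    rw [this, norm_neg, norm_mul, norm_pow, hz]; simp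
  | dneg k p h hp =>
    right
    have : aeval z p - aeval z (p + X ^ k - X ^ (k + 1)) = - (z ^ k * (1 - z)) := by
      simp only [map_add, map_sub, map_pow, aeval_X]; ring
    rw [this, norm_neg, norm_mul, norm_pow, hz]; simp
  | symm P Q R h ih =>
    rwa [norm_sub_rev]

end Pool.Agent.V11151.DD
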