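import Pool.Agent.V11151.DD.Core

open Real

namespace Pool.Agent.V11151.DD

/-- Twice the signed area of a triangle. -/
def ori (a b c : Fin 2 → ℝ) : ℝ := (b 0 - a 0) * (c 1 - a 1) - (b 1 - a 1) * (c 0 - a 0)

lemma ori_circle {α β γ : ℝ} (h1 : -π < α) (h2 : α < β) (h3 : β < γ) (h4 : γ ≤ π) :
    0 < (cos β - cos α) * (sin γ - sin α) - (sin β - sin α) * (cos γ - cos α) := by
  have key : (cos β - cos α) * (sin γ - sin α) - (sin β - sin α) * (cos γ - cos α) =
      4 * sin ((β - α) / 2) * sin ((γ - β) / 2) * sin ((γ - α) / 2) := by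
    have e1 : (cos β - cos α) * (sin γ - sin α) - (sin β - sin α) * (cos γ - cos α) =
        sin (β - α) + sin (γ - β) - sin (γ - α) := by
      rw [sin_sub, sin_sub, sin_sub]
      ring
    rw [e1]
    set x := (β - α) / 2 with hx
    set y := (γ - β) / 2 with hy
    have e2 : (γ - α) / 2 = x + y := by rw [hx, hy]; ring
    have e3 : γ - α = 2 * (x + y) := by rw [hx, hy]; ring
    have e4 : β - α = 2 * x := by rw [hx]; ring
    have e5 : γ - β = 2 * y := by rw [hy]; ring
    rw [e2, e3, e4, e5, sin_two_mul, sin_two_mul, sin_two_mul, sin_add, cos_add]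
    have hx2 := sin_sq_add_cos_sq x
    have hy2 := sin_sq_add_cos_sq y
    have hx3 : cos x ^ 2 = 1 - sin x ^ 2 := by linarith
    have hy3 : cos y ^ 2 = 1 - sin y ^ 2 := by linarith
    linear_combination (- 2 * sin x * cos x) * hy2 + (- 2 * sin y * cos y) * hx2
  rw [key]
  have p1 : 0 < sin ((β - α) / 2) := sin_pos_of_pos_of_lt_pi (by linarith) (by linarith)
  have p2 : 0 < sin ((γ - β) / 2) := sin_pos_of_pos_of_lt_pi (by linarith) (by linarith)
  have p3 : 0 < sin ((γ - α) / 2) := sin_pos_of_pos_of_lt_pi (by linarith) (by linarith)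
  positivity

/-- A straight segment. -/
def OnSeg (a b x : Fin 2 → ℝ) : Prop := ∃ t : ℝ, 0 ≤ t ∧ t ≤ 1 ∧ ∀ i, x i = a i + t * (b i - a i)

/-- Chords whose ends alternate have a common point. -/
lemma chords_meet {a b c d : Fin 2 → ℝ} (h1 : 0 < ori a c b) (h2 : 0 < ori a b d)
    (h3 : 0 < ori a c d) (h4 : 0 < ori c b d) : ∃ x, OnSeg a b x ∧ OnSeg c d x := by
  have e1 : ori c d a = ori a c d := by simp only [ori]; ring
  have e2 : ori c d b = - ori c b d := by simp only [ori]; ring
  have e3 : ori a b c = - ori a c b := by simp only [ori]; ring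
  have hD : ori a c d + ori c b d = ori a c b + ori a b d := by simp only [ori]; ring
  have hpos : 0 < ori a c d + ori c b d := by linarith
  refine ⟨fun i => a i + (ori a c d / (ori a c d + ori c b d)) * (b i - a i),
    ⟨ori a c d / (ori a c d + ori c b d), by positivity, ?_, fun i => rfl⟩,
    ⟨ori a c b / (ori a c d + ori c b d), by positivity, ?_, fun i => ?_⟩⟩
  · rw [div_le_one hpos]; linarith
  · rw [div_le_one hpos]; linarith
  · have hne : ori a c d + ori c b d ≠ 0 := hpos.ne'
    have key : a i * (ori a c d + ori c b d) + ori a c d * (b i - a i) =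
        c i * (ori a c d + ori c b d) + ori a c b * (d i - c i) := by
      fin_cases i <;> simp only [ori] <;> simp <;> ring
    field_simp
    linarith

end Pool.Agent.V11151.DD
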