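import Pool.Agent.V11151.DD.Geo

open Polynomial

namespace Pool.Agent.V11151.DD

/-- `G` is outerplanar: it has a plane straight-line drawing with its vertices at distinct points
of the unit circle, edges without a common end being disjoint chords. -/
def Outerplanar {V : Type*} (G : SimpleGraph V) : Prop :=
  ∃ p : V → EuclideanSpace ℝ (Fin 2), Function.Injective p ∧ (∀ v, ‖p v‖ = 1) ∧
    ∀ a b c d, G.Adj a b → G.Adj c d → a ≠ c → a ≠ d → b ≠ c → b ≠ d →
      Disjoint (segment ℝ (p a) (p b)) (segment ℝ (p c) (p d))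

lemma onSeg_segment {a b x : EuclideanSpace ℝ (Fin 2)} (h : OnSeg a b x) : x ∈ segment ℝ a b := by
  obtain ⟨t, h0, h1, h⟩ := h
  refine ⟨1 - t, t, by linarith, h0, by ring, ?_⟩
  ext i
  have := h i
  simp only [PiLp.add_apply, PiLp.smul_apply, smul_eq_mul]
  rw [this]; ring

theorem angle_order {V : Type*} {G : SimpleGraph V} (h : Outerplanar G) :
    ∃ θ : V → ℝ, Function.Injective θ ∧ ∀ a b c d, G.Adj a b → G.Adj c d →
      θ a < θ c → θ c < θ b → θ b < θ d → False := by
  obtain ⟨p, hinj, hnorm, hdis⟩ := h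
  have hsq : ∀ v, (p v 0) ^ 2 + (p v 1) ^ 2 = 1 := by
    intro v
    have := EuclideanSpace.real_norm_sq_eq (p v)
    rw [hnorm v, Fin.sum_univ_two] at this
    linarith
  let w : V → ℂ := fun v => ⟨p v 0, p v 1⟩
  have hw : ∀ v, ‖w v‖ = 1 := by
    intro v
    have h1 : Complex.normSq (w v) = 1 := by
      rw [Complex.normSq_apply]; simp only [w]; nlinarith [hsq v]
    rw [Complex.normSq_eq_norm_sq] at h1
    have h2 := norm_nonneg (w v)
    nlinarith
  have hcos : ∀ v, Real.cos (Complex.arg (w v)) = p v 0 := by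
    intro v
    have := Complex.norm_mul_cos_arg (w v)
    rw [hw v, one_mul] at this
    exact this
  have hsin : ∀ v, Real.sin (Complex.arg (w v)) = p v 1 := by
    intro v
    have := Complex.norm_mul_sin_arg (w v)
    rw [hw v, one_mul] at this
    exact this
  have hori : ∀ a b c, Complex.arg (w a) < Complex.arg (w b) →
      Complex.arg (w b) < Complex.arg (w c) → 0 < ori (p a) (p b) (p c) := by
    intro a b c h1 h2
    have := ori_circle (Complex.neg_pi_lt_arg (w a)) h1 h2 (Complex.arg_le_pi (w c))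
    rw [hcos, hcos, hcos, hsin, hsin, hsin] at this
    exact this
  refine ⟨fun v => Complex.arg (w v), ?_, ?_⟩
  · intro u v huv
    apply hinj
    ext i
    fin_cases i
    · show p u 0 = p v 0
      rw [← hcos u, ← hcos v]; exact congrArg Real.cos huv
    · show p u 1 = p v 1
      rw [← hsin u, ← hsin v]; exact congrArg Real.sin huv
  · intro a b c d hab hcd h1 h2 h3
    have n1 : a ≠ c := fun h => by subst h; exact lt_irrefl _ h1
    have n2 : a ≠ d := fun h => by subst h; exact lt_asymm (h1.trans h2) h3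
    have n3 : b ≠ c := fun h => by subst h; exact lt_irrefl _ h2
    have n4 : b ≠ d := fun h => by subst h; exact lt_irrefl _ h3
    have hd := hdis a b c d hab hcd n1 n2 n3 n4
    obtain ⟨x, hx1, hx2⟩ := chords_meet (hori a c b h1 h2) (hori a b d (h1.trans h2) h3)
      (hori a c d h1 (h2.trans h3)) (hori c b d h2 h3)
    let y : EuclideanSpace ℝ (Fin 2) := WithLp.toLp 2 x
    have y1 : y ∈ segment ℝ (p a) (p b) := onSeg_segment (by exact hx1)
    have y2 : y ∈ segment ℝ (p c) (p d) := onSeg_segment (by exact hx2)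
    exact Set.disjoint_left.mp hd y1 y2

/-- Every finite outerplanar graph lives in the infinite triangulated rhombus tree. -/
theorem positions {V : Type*} [Finite V] {G : SimpleGraph V} (h : Outerplanar G) :
    ∃ F : V → ℤ[X], Function.Injective F ∧ ∀ u v, G.Adj u v → ∃ R, T (F u) (F v) R := by
  classical
  obtain ⟨θ, hθ, hnc⟩ := angle_order h
  haveI := Fintype.ofFinite V
  let r : V → ℕ := fun v => (Finset.univ.filter (fun u => θ u < θ v)).card
  have hr : ∀ u v, θ u < θ v → r u < r v := by
    intro u v huv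
    apply Finset.card_lt_card
    refine ⟨fun x hx => ?_, fun hx => ?_⟩
    · simp only [Finset.mem_filter, Finset.mem_univ, true_and] at hx ⊢
      exact hx.trans huv
    · have := hx (show u ∈ _ by simpa using huv)
      simp at this
  have hr' : ∀ u v, r u < r v → θ u < θ v := by
    intro u v huv
    by_contra hcon
    rcases lt_or_eq_of_le (not_lt.mp hcon) with h1 | h1
    · exact absurd (hr v u h1) (by omega)
    · rw [hθ h1] at huv; exact lt_irrefl _ huv
  have hrinj : ∀ u v, u ≠ v → r u ≠ r v := by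
    intro u v huv he
    rcases lt_trichotomy (θ u) (θ v) with h1 | h1 | h1
    · exact absurd (hr u v h1) (by omega)
    · exact huv (hθ h1)
    · exact absurd (hr v u h1) (by omega)
  have hrb : ∀ v, r v ≤ Fintype.card V := fun v => Finset.card_le_univ _
  obtain ⟨f, _, _, _, finj, fe⟩ := draw (fun i j => ∃ u v, r u + 1 = i ∧ r v + 1 = j ∧ G.Adj u v)
    (by
      rintro a b c d ⟨u, v, h1, h2, h3⟩ ⟨u', v', h4, h5, h6⟩ l1 l2 l3
      exact hnc u v u' v' h3 h6 (hr' _ _ (by omega)) (hr' _ _ (by omega)) (hr' _ _ (by omega)))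
    (Fintype.card V + 2) 0 (Fintype.card V + 2) (by omega) (by omega) 0 (0 + X ^ 0) (RU 0 0)
    (T.side 0 0 (fun j _ => by simp))
  refine ⟨fun v => f (r v + 1), ?_, ?_⟩
  · intro u v huv
    by_contra hne
    have h1 := hrb u
    have h2 := hrb v
    rcases Nat.lt_or_gt_of_ne (hrinj u v hne) with h3 | h3
    · exact finj _ _ (by omega) (by omega) (by omega) huv
    · exact finj _ _ (by omega) (by omega) (by omega) huv.symm
  · intro u v huv
    have h1 := hrb u
    have h2 := hrb v
    rcases Nat.lt_or_gt_of_ne (hrinj u v huv.ne) with h3 | h3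
    · exact fe _ _ (by omega) (by omega) (by omega) ⟨u, v, rfl, rfl, huv⟩
    · obtain ⟨R, hR⟩ := fe _ _ (by omega) (by omega) (by omega) ⟨v, u, rfl, rfl, huv.symm⟩
      exact ⟨R, T.symm _ _ _ hR⟩

/-- The point of the plane given by a complex number. -/
noncomputable def toE (w : ℂ) : EuclideanSpace ℝ (Fin 2) := !₂[w.re, w.im]

lemma dist_toE (w w' : ℂ) : dist (toE w) (toE w') = ‖w - w'‖ := by
  rw [EuclideanSpace.dist_eq, Fin.sum_univ_two, Complex.norm_eq_sqrt_sq_add_sq]
  congr 1
  simp [toE, Real.dist_eq, sq_abs]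

lemma toE_inj {w w' : ℂ} (h : toE w = toE w') : w = w' := by
  have : dist (toE w) (toE w') = 0 := by rw [h, dist_self]
  rw [dist_toE, norm_eq_zero, sub_eq_zero] at this
  exact this

end Pool.Agent.V11151.DD
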